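import Pool.Agent.Lib.MP_b9b223_co.Graph

set_option autoImplicit false

namespace Pool.Agent.Results.MP_b9b223_co.UpperBound

/-- Every 6-cycle-free subgraph of the n-dimensional hypercube has at most
`(0.34639 + o(1)) * n * 2 ^ (n - 1)` edges. -/
theorem result :
    ∀ ε : ℝ, 0 < ε → ∃ N : ℕ, ∀ n : ℕ, N ≤ n →
      ∀ H : SimpleGraph (Fin n → Bool),
        H ≤ SimpleGraph.fromRel (fun x y : Fin n → Bool => hammingDist x y = 1) →
        (∀ (v : Fin n → Bool) (p : H.Walk v v), p.IsCycle → p.length ≠ 6) →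
        (H.edgeSet.ncard : ℝ) ≤ (34639 / 100000 + ε) * ((n : ℝ) * (2 : ℝ) ^ (n - 1)) := by
  intro ε hε
  obtain ⟨N, hN⟩ := exists_nat_ge (2540 / ε)
  refine ⟨N + 1, fun n hn H hH h6 => ?_⟩
  obtain ⟨m, rfl⟩ : ∃ m, n = m + 1 := ⟨n - 1, by omega⟩
  have h1 := Pool.Agent.HexCube.main_int H hH h6
  have h2 := le_of_mul_le_mul_left h1 (by positivity)
  have h3 : (6291456 : ℝ) * (H.edgeSet.ncard : ℝ) ≤
      1089648 * (((m + 1 : ℕ) : ℝ) * 2 ^ (m + 1)) + 7990149120 * 2 ^ (m + 1) := by exact_mod_cast h2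
  have h4 : (2540 : ℝ) ≤ ε * ((m + 1 : ℕ) : ℝ) := by
    rw [div_le_iff₀ hε] at hN
    have : (N : ℝ) ≤ ((m + 1 : ℕ) : ℝ) := by exact_mod_cast (by omega : N ≤ m + 1)
    nlinarith
  rw [Nat.add_sub_cancel]
  rw [pow_succ] at h3
  have hp : (0 : ℝ) < 2 ^ m := by positivity
  have h5 := mul_le_mul_of_nonneg_right h4 hp.le
  have h7 : (0 : ℝ) ≤ ((m + 1 : ℕ) : ℝ) * 2 ^ m := by positivity
  nlinarith

end Pool.Agent.Results.MP_b9b223_co.UpperBound
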